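import Pool.Agent.H29.Abel

namespace Pool.Agent.Results.MP_968b24_an.Q1

open Pool.Agent.H29.Abel

theorem result (s : ℕ → ℝ) (hs : ∃ B, ∀ n, |s n| ≤ B) :
    ∃ l : ℕ → ℝ, (∃ c, Adm l s c) ∧ FullyMono l ∧ Antitone l := by
  obtain ⟨B, hB⟩ := hs
  obtain ⟨l, c, -, h1, h2⟩ := exists_adm (a := -B) (b := B) hB strictMono_id fun k =>
    abs_le.1 (ab_le (tau_pos _) (tau_lt _) hB)
  exact ⟨l, ⟨c, h1⟩, h2, antitone_nat_of_succ_le fun n => sub_nonneg.1 (h2 1 n le_rfl)⟩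

end Pool.Agent.Results.MP_968b24_an.Q1
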