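import Pool.Agent.H29.Abel

namespace Pool.Agent.Results.MP_968b24_an.Q2

open Pool.Agent.H29.Abel Finset

def s0 (i : ℕ) : ℝ := if Even (Nat.log 256 i) then 0 else 1

lemma near {t v : ℝ} (h0 : 0 < t) (h1 : t < 1) {u : ℕ → ℝ} (hu : ∀ i, |u i| ≤ 1)
    (hv : ∀ i, |u i - v| ≤ 1) {N N' : ℕ} (hN : N ≤ N') (h : ∀ i, N ≤ i → i < N' → u i = v) :
    |ab u t - v| ≤ (1 - t ^ N) + t ^ N' := by
  rw [← ab_sub h0 h1 hu]
  have a := head_le (n := N) h0 h1 hv
  have b := tail_le h0 h1 hv N'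
  have c : ∑ i ∈ range N', (1 - t) * t ^ i * (u i - v) =
      ∑ i ∈ range N, (1 - t) * t ^ i * (u i - v) := by
    refine (sum_subset (range_subset_range.2 hN) fun i hi hi' => ?_).symm
    rw [h i (by simpa using hi') (mem_range.1 hi), sub_self, mul_zero]
  rw [c] at b
  rw [abs_le] at a b ⊢
  constructor <;> linarith [a.1, a.2, b.1, b.2]

lemma est (j : ℕ) : |ab s0 (tau (8 * j + 4)) - s0 (256 ^ j)| ≤ 1 / 4 := by
  have hb : ∀ i, s0 i = 0 ∨ s0 i = 1 := fun i => by
    unfold s0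
    split_ifs <;> simp
  refine (near (tau_pos _) (tau_lt _) (N := 256 ^ j) (N' := 256 ^ (j + 1)) (fun i => ?_)
    (fun i => ?_) (Nat.pow_le_pow_right (by norm_num) (by omega)) fun i h1 h2 => ?_).trans ?_
  · rcases hb i with h | h <;> simp [h]
  · rcases hb i with h | h <;> rcases hb (256 ^ j) with h' | h' <;> simp [h, h']
  · simp only [s0, Nat.log_eq_of_pow_le_of_lt_pow h1 h2, Nat.log_pow (by norm_num : 1 < 256)]
  · have e : (256 : ℝ) ^ j = 2 ^ (8 * j) := by rw [pow_mul]; norm_num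
    have e1 : tau (8 * j + 4) ^ 256 ^ j = Real.exp (-(1 / 16)) := by
      rw [tau, ← Real.exp_nat_mul]
      congr 1
      push_cast
      rw [e, pow_add]
      field_simp
      norm_num
    have e2 : tau (8 * j + 4) ^ 256 ^ (j + 1) = (Real.exp 16)⁻¹ := by
      rw [tau, ← Real.exp_nat_mul, ← Real.exp_neg]
      congr 1
      push_cast
      rw [pow_succ, e, pow_add]
      field_simp
      norm_num
    have a := Real.add_one_le_exp (-(1 / 16))
    have b := Real.add_one_le_exp 16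
    have c : (Real.exp 16)⁻¹ ≤ 17⁻¹ := inv_anti₀ (by norm_num) (by linarith)
    rw [e1, e2]
    linarith

theorem result : ∃ s : ℕ → ℝ, (∀ n, s n = 0 ∨ s n = 1) ∧ ∃ (l l' : ℕ → ℝ) (c c' : ℝ),
    Adm l s c ∧ FullyMono l ∧ Adm l' s c' ∧ FullyMono l' ∧ c ≠ c' := by
  have hb : ∀ i, s0 i = 0 ∨ s0 i = 1 := fun i => by
    unfold s0
    split_ifs <;> simp
  have hs : ∀ i, |s0 i| ≤ 1 := fun i => by rcases hb i with h | h <;> simp [h]
  obtain ⟨l, c, hc, h1, h2⟩ := exists_adm (a := -(1 / 4)) (b := 1 / 4) hs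
    (ψ := fun k => 8 * (2 * k) + 4) (fun a b h => by simp only; omega) fun k => by
      have := est (2 * k)
      rw [s0, Nat.log_pow (by norm_num), if_pos (even_two_mul k), sub_zero] at this
      exact abs_le.1 this
  obtain ⟨l', c', hc', h1', h2'⟩ := exists_adm (a := 3 / 4) (b := 5 / 4) hs
    (ψ := fun k => 8 * (2 * k + 1) + 4) (fun a b h => by simp only; omega) fun k => by
      have := est (2 * k + 1)
      rw [s0, Nat.log_pow (by norm_num), if_neg (by simp), abs_le] at this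
      exact ⟨by linarith [this.1], by linarith [this.2]⟩
  exact ⟨s0, hb, l, l', c, c', h1, h2, h1', h2', by linarith [hc.2, hc'.1] |> ne_of_lt⟩

end Pool.Agent.Results.MP_968b24_an.Q2
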